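import Pool.Agent.Helper51.LT.St
import Pool.Agent.Helper71.TU.X5aux

/-!
# Project LT: module STL (step of the second gliding hump)
-/

set_option autoImplicit false

namespace Pool.Agent.Helper76.LT

open Complex MeasureTheory Set Metric Filter Topology
open scoped Real ENNReal
open Pool.Agent.Helper60.Rel (LH tc Admissible ClassS LogData om th)
open Pool.Agent.Helper51.LT

theorem stl_norm_lt {h : ℂ → ℂ} (hh : BU h) : ∀ z ∈ ball (0 : ℂ) 1, ‖h z‖ < 1 := by
  intro z hz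
  have h1 : IsOpen (h '' ball 0 1) := Pool.TU.X5.isOpen_image_of_injOn isOpen_ball hh.1.1 hh.1.2
  have h2 : h '' ball 0 1 ⊆ closedBall (0 : ℂ) 1 := by
    rintro _ ⟨w, hw, rfl⟩
    simpa [mem_closedBall, dist_zero_right] using hh.2 w hw
  have h3 : h '' ball 0 1 ⊆ interior (closedBall (0 : ℂ) 1) := interior_maximal h2 h1
  rw [interior_closedBall (0 : ℂ) one_ne_zero] at h3
  have h4 := h3 ⟨z, hz, rfl⟩
  simpa [mem_ball, dist_zero_right] using h4

/-- robustness of the coefficient event -/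
theorem stl_rob (hTcf : StTcf) {α : ℝ} {j T : ℕ} {f : ℂ → ℂ} (hf : DifferentiableOn ℂ f (ball 0 1))
    (hT : 1 ≤ T) (hj : j ≤ T) (hbig : ((j : ℝ) + 1) * (T : ℝ) ^ α ≤ ‖tc f T‖) :
    Rob (QL α j) f := by
  have hTpos : (0 : ℝ) < (T : ℝ) := by exact_mod_cast hT
  have hTa : 0 < (T : ℝ) ^ α := Real.rpow_pos_of_pos hTpos _
  refine ⟨(T : ℝ) ^ α / 2 ^ (T + 1), by positivity, 1 / 2, by norm_num, by norm_num, ?_⟩
  intro F hF hclose
  refine ⟨T, hj, ?_⟩
  set η' : ℝ := (T : ℝ) ^ α / 2 ^ (T + 1) with hη'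
  have hsub : closedBall (0 : ℂ) (1 / 2) ⊆ ball 0 1 := closedBall_subset_ball (by norm_num)
  have e1 := hTcf F (1 / 2) T (by norm_num) (hF.mono hsub) ⟨1, by norm_num, hF⟩
  have e2 := hTcf f (1 / 2) T (by norm_num) (hf.mono hsub) ⟨1, by norm_num, hf⟩
  have hmem : ∀ t : ℝ, circleMap 0 (1 / 2) t ∈ ball (0 : ℂ) 1 := by
    intro t
    apply hsub
    exact circleMap_mem_closedBall 0 (by norm_num) t
  have hne : ∀ t : ℝ, circleMap 0 (1 / 2) t ≠ (0 : ℂ) := by
    intro t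
    exact circleMap_ne_center (by norm_num)
  have hcont : ∀ G : ℂ → ℂ, DifferentiableOn ℂ G (ball 0 1) →
      Continuous (fun t : ℝ => G (circleMap 0 (1 / 2) t) * (circleMap 0 (1 / 2) t ^ T)⁻¹) := by
    intro G hG
    have h1 : Continuous (fun t : ℝ => G (circleMap 0 (1 / 2) t)) :=
      hG.continuousOn.comp_continuous (continuous_circleMap 0 (1 / 2)) hmem
    have h2 : Continuous (fun t : ℝ => (circleMap 0 (1 / 2) t ^ T)⁻¹) := by
      refine Continuous.inv₀ ((continuous_circleMap 0 (1 / 2)).pow T) ?_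
      intro t
      exact pow_ne_zero _ (hne t)
    exact h1.mul h2
  have hdiff : tc F T - tc f T = (2 * π)⁻¹ * ∫ t in (0 : ℝ)..(2 * π),
      (F (circleMap 0 (1 / 2) t) * (circleMap 0 (1 / 2) t ^ T)⁻¹ -
        f (circleMap 0 (1 / 2) t) * (circleMap 0 (1 / 2) t ^ T)⁻¹) := by
    rw [intervalIntegral.integral_sub ((hcont F hF).intervalIntegrable _ _)
      ((hcont f hf).intervalIntegrable _ _), e1, e2]
    ring
  have hbound : ‖∫ t in (0 : ℝ)..(2 * π),
      (F (circleMap 0 (1 / 2) t) * (circleMap 0 (1 / 2) t ^ T)⁻¹ -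
        f (circleMap 0 (1 / 2) t) * (circleMap 0 (1 / 2) t ^ T)⁻¹)‖ ≤
        (η' * 2 ^ T) * |2 * π - 0| := by
    apply intervalIntegral.norm_integral_le_of_norm_le_const
    intro t _
    rw [← sub_mul, norm_mul, norm_inv, norm_pow, norm_circleMap_zero]
    have h1 : ‖F (circleMap 0 (1 / 2) t) - f (circleMap 0 (1 / 2) t)‖ ≤ η' := by
      apply hclose
      rw [norm_circleMap_zero]
      rw [abs_of_pos (by norm_num)]
    have h2 : (|(1 / 2 : ℝ)| ^ T)⁻¹ = 2 ^ T := by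
      rw [abs_of_pos (by norm_num), one_div, inv_pow, inv_inv]
    rw [h2]
    exact mul_le_mul_of_nonneg_right h1 (by positivity)
  have hfin : ‖tc F T - tc f T‖ ≤ η' * 2 ^ T := by
    rw [hdiff, norm_mul]
    have h3 : ‖(((2 * π)⁻¹ : ℝ) : ℂ)‖ = (2 * π)⁻¹ := by
      rw [Complex.norm_real, Real.norm_of_nonneg (by positivity)]
    rw [h3]
    have h4 : |2 * π - 0| = 2 * π := by
      rw [sub_zero, abs_of_pos (by positivity)]
    rw [h4] at hbound
    calc (2 * π)⁻¹ * _ ≤ (2 * π)⁻¹ * ((η' * 2 ^ T) * (2 * π)) :=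
          mul_le_mul_of_nonneg_left hbound (by positivity)
      _ = η' * 2 ^ T := by
          field_simp
  have h5 : η' * 2 ^ T = (T : ℝ) ^ α / 2 := by
    rw [hη', pow_succ]
    field_simp
  have h6 : ‖tc f T‖ ≤ ‖tc F T‖ + ‖tc F T - tc f T‖ := by
    have := norm_sub_le (tc F T) (tc F T - tc f T)
    simpa using this
  rw [h5] at hfin
  nlinarith

/-- the polynomial factor -/
theorem stl_pow {e g : ℝ} (he : 0 < e) (heg : e < g) (N : ℕ) :
    ∃ C : ℝ, 0 < C ∧ ∀ (d : ℝ) (T : ℕ), 0 < d → d ≤ 1 →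
      (T : ℝ) ≤ 203 * N * (1 / d * (1 + Real.log (1 / d))) → (T : ℝ) ^ e ≤ C * d ^ (-g) := by
  set s : ℝ := (g - e) / e with hs
  have hspos : 0 < s := div_pos (by linarith) he
  refine ⟨(203 * N * (1 + 1 / s)) ^ e + 1, by positivity, ?_⟩
  intro d T hd hd1 hT
  have hx : 1 ≤ 1 / d := by rw [le_div_iff₀ hd]; linarith
  set x : ℝ := 1 / d with hxd
  have hxpos : 0 < x := by linarith
  have hlog : Real.log x ≤ x ^ s / s := Real.log_le_rpow_div hxpos.le hspos
  have hxs : 1 ≤ x ^ s := Real.one_le_rpow hx hspos.le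
  have h1 : 1 + Real.log x ≤ (1 + 1 / s) * x ^ s := by
    have : (1 + 1 / s) * x ^ s = x ^ s + x ^ s / s := by ring
    rw [this]; linarith
  have h2 : (T : ℝ) ≤ 203 * N * (1 + 1 / s) * (x * x ^ s) := by
    refine hT.trans ?_
    have : 203 * N * (1 + 1 / s) * (x * x ^ s) = 203 * N * (x * ((1 + 1 / s) * x ^ s)) := by ring
    rw [this]
    apply mul_le_mul_of_nonneg_left _ (by positivity)
    exact mul_le_mul_of_nonneg_left h1 hxpos.le
  have h3 : (x * x ^ s) ^ e = d ^ (-g) := by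
    have e1 : x * x ^ s = x ^ (1 + s) := by
      rw [Real.rpow_add hxpos, Real.rpow_one]
    rw [e1, ← Real.rpow_mul hxpos.le]
    have e2 : (1 + s) * e = g := by rw [hs]; field_simp; ring
    rw [e2, hxd, one_div, Real.inv_rpow hd.le, Real.rpow_neg hd.le]
  have h4 : (T : ℝ) ^ e ≤ (203 * N * (1 + 1 / s) * (x * x ^ s)) ^ e :=
    Real.rpow_le_rpow (by positivity) h2 he.le
  rw [Real.mul_rpow (by positivity) (by positivity), h3] at h4
  refine h4.trans ?_
  apply mul_le_mul_of_nonneg_right _ (Real.rpow_nonneg hd.le _)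
  linarith

/-- the exponentially small term -/
theorem stl_exp {d : ℝ} {T : ℕ} (hd : 0 < d) (hd1 : d ≤ 1)
    (hT : 200 / d * (1 + Real.log (1 / d)) ≤ T) :
    (T : ℝ) * (1 + d) ^ (-(T : ℝ)) ≤ 4 := by
  have hlog : 0 ≤ Real.log (1 / d) := Real.log_nonneg (by rw [le_div_iff₀ hd]; linarith)
  have hTpos : 0 < (T : ℝ) := lt_of_lt_of_le (by positivity) hT
  set y : ℝ := d * T with hy
  have hy1 : 200 * (1 + Real.log (1 / d)) ≤ y := by
    rw [hy]
    calc 200 * (1 + Real.log (1 / d)) = d * (200 / d * (1 + Real.log (1 / d))) := by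
          field_simp
      _ ≤ d * T := mul_le_mul_of_nonneg_left hT hd.le
  have hypos : 0 < y := by positivity
  have h1 : d / 2 ≤ Real.log (1 + d) := by
    have h := Real.one_sub_inv_le_log_of_pos (show (0 : ℝ) < 1 + d by linarith)
    refine le_trans ?_ h
    have : 1 - (1 + d)⁻¹ = d / (1 + d) := by field_simp; ring
    rw [this]
    apply div_le_div_of_nonneg_left hd.le (by linarith) (by linarith)
  have h2 : (1 + d) ^ (-(T : ℝ)) ≤ Real.exp (-(y / 2)) := by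
    rw [Real.rpow_def_of_pos (by linarith)]
    apply Real.exp_le_exp.2
    have : y / 2 ≤ Real.log (1 + d) * T := by
      calc y / 2 = d / 2 * T := by rw [hy]; ring
        _ ≤ _ := mul_le_mul_of_nonneg_right h1 hTpos.le
    linarith
  have h3 : Real.exp (-(y / 4)) ≤ d := by
    have : -(y / 4) ≤ Real.log d := by
      have e1 : Real.log (1 / d) = - Real.log d := by rw [one_div, Real.log_inv]
      rw [e1] at hy1 hlog
      linarith
    calc Real.exp (-(y / 4)) ≤ Real.exp (Real.log d) := Real.exp_le_exp.2 this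
      _ = d := Real.exp_log hd
  have h4 : y * Real.exp (-(y / 4)) ≤ 4 := by
    have h5 : y / 4 ≤ Real.exp (y / 4) := by
      have := Real.add_one_le_exp (y / 4); linarith
    have h6 : Real.exp (y / 4) * Real.exp (-(y / 4)) = 1 := by
      rw [← Real.exp_add]; simp
    have h7 : 0 < Real.exp (-(y / 4)) := Real.exp_pos _
    nlinarith
  have h8 : Real.exp (-(y / 2)) = Real.exp (-(y / 4)) * Real.exp (-(y / 4)) := by
    rw [← Real.exp_add]; congr 1; ring
  calc (T : ℝ) * (1 + d) ^ (-(T : ℝ)) ≤ T * (Real.exp (-(y / 4)) * Real.exp (-(y / 4))) := by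
        rw [← h8]; exact mul_le_mul_of_nonneg_left h2 hTpos.le
    _ ≤ T * (Real.exp (-(y / 4)) * d) := by
        apply mul_le_mul_of_nonneg_left _ hTpos.le
        exact mul_le_mul_of_nonneg_left h3 (Real.exp_pos _).le
    _ = y * Real.exp (-(y / 4)) := by rw [hy]; ring
    _ ≤ 4 := h4

/-- symmetry of the primitive -/
theorem stl_sym {N M : ℕ} {F u : ℂ → ℂ} {p : Polynomial ℂ} (hN : 1 ≤ N) (hNM : N ∣ M)
    (hF : DifferentiableOn ℂ F (ball 0 1)) (hS : Sy N F) (hu0 : u 0 = 0)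
    (hu : ∀ z ∈ ball (0 : ℂ) 1, HasDerivAt u (1 / 2000 * deriv F z * z ^ M * p.eval z) z)
    (hp : ∀ ω z : ℂ, ω ^ N = 1 → p.eval (ω * z) = p.eval z) : Sy N u := by
  intro ω z hω hz
  have hωn : ‖ω‖ = 1 := by
    have h1 : ‖ω‖ ^ N = 1 := by rw [← norm_pow, hω, norm_one]
    exact (pow_eq_one_iff_of_nonneg (norm_nonneg _) (by omega)).1 h1
  have hω0 : ω ≠ 0 := by
    intro h; rw [h, norm_zero] at hωn; exact zero_ne_one hωn
  have hωz : ∀ w ∈ ball (0 : ℂ) 1, ω * w ∈ ball (0 : ℂ) 1 := by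
    intro w hw
    rw [mem_ball, dist_zero_right] at hw ⊢
    rw [norm_mul, hωn, one_mul]; exact hw
  have hωM : ω ^ M = 1 := by
    obtain ⟨k, rfl⟩ := hNM
    rw [pow_mul, hω, one_pow]
  have hder : ∀ w ∈ ball (0 : ℂ) 1, deriv F (ω * w) = deriv F w := by
    intro w hw
    have h1 : HasDerivAt F (deriv F (ω * w)) (ω * w) :=
      ((hF _ (hωz w hw)).differentiableAt (isOpen_ball.mem_nhds (hωz w hw))).hasDerivAt
    have h2 : HasDerivAt F (deriv F w) w :=
      ((hF _ hw).differentiableAt (isOpen_ball.mem_nhds hw)).hasDerivAt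
    have h3 : HasDerivAt (fun v => F (ω * v)) (deriv F (ω * w) * (ω * 1)) w :=
      HasDerivAt.comp w h1 ((hasDerivAt_id w).const_mul ω)
    have h4 : HasDerivAt (fun v => ω * F v) (ω * deriv F w) w := h2.const_mul ω
    have h5 : (fun v => F (ω * v)) =ᶠ[𝓝 w] (fun v => ω * F v) := by
      filter_upwards [isOpen_ball.mem_nhds hw] with v hv
      exact hS ω v hω hv
    have h6 : HasDerivAt (fun v => F (ω * v)) (ω * deriv F w) w := h4.congr_of_eventuallyEq h5
    have h7 := h3.unique h6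
    rw [mul_one, mul_comm] at h7
    exact mul_left_cancel₀ hω0 h7
  have hD : ∀ w ∈ ball (0 : ℂ) 1, HasDerivAt (fun v => u (ω * v) - ω * u v) 0 w := by
    intro w hw
    have h1 := hu _ (hωz w hw)
    have h2 := hu w hw
    have h3 : HasDerivAt (fun v => u (ω * v))
        ((1 / 2000 * deriv F (ω * w) * (ω * w) ^ M * p.eval (ω * w)) * (ω * 1)) w :=
      HasDerivAt.comp w h1 ((hasDerivAt_id w).const_mul ω)
    have h4 := h3.sub (h2.const_mul ω)
    have h5 : (1 / 2000 * deriv F (ω * w) * (ω * w) ^ M * p.eval (ω * w)) * (ω * 1) -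
        ω * (1 / 2000 * deriv F w * w ^ M * p.eval w) = 0 := by
      rw [hder w hw, mul_pow, hωM, hp ω w hω]; ring
    rw [h5] at h4
    exact h4
  have hconst := (convex_ball (0 : ℂ) 1).is_const_of_fderivWithin_eq_zero (𝕜 := ℂ)
    (f := fun v => u (ω * v) - ω * u v)
    (fun w hw => (hD w hw).differentiableAt.differentiableWithinAt)
    (fun w hw => by
      rw [fderivWithin_of_isOpen isOpen_ball hw]
      have := (hD w hw).hasFDerivAt.fderiv
      rw [this]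
      ext; simp)
    hz (mem_ball_self one_pos)
  simp only [mul_zero, hu0, sub_zero] at hconst
  linear_combination hconst

/-- integral mean of the composition -/
theorem stl_IM {f h : ℂ → ℂ} {R ρ c : ℝ} (hR : 1 < R) (hf : DifferentiableOn ℂ f (ball 0 R))
    (hh : BU h) (hρ : 0 < ρ) (hρ1 : ρ < 1) (hc : ∀ z : ℂ, ‖z‖ ≤ 1 → c ≤ ‖deriv f z‖) :
    ρ * c * IM h ρ ≤ IM (fun z => f (h (ρ * z))) 1 := by
  have hmem : ∀ t : ℝ, circleMap 0 ρ t ∈ ball (0 : ℂ) 1 := by
    intro t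
    rw [mem_ball, dist_zero_right, norm_circleMap_zero, abs_of_pos hρ]; exact hρ1
  have hmul : ∀ t : ℝ, (ρ : ℂ) * circleMap 0 1 t = circleMap 0 ρ t := by
    intro t; simp [circleMap]
  have hhm : ∀ z ∈ ball (0 : ℂ) 1, h z ∈ ball (0 : ℂ) R := by
    intro z hz
    rw [mem_ball, dist_zero_right]
    exact lt_of_le_of_lt (hh.2 z hz) hR
  have hderiv : ∀ t : ℝ, deriv (fun z => f (h (ρ * z))) (circleMap 0 1 t) =
      deriv f (h (circleMap 0 ρ t)) * (deriv h (circleMap 0 ρ t) * ρ) := by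
    intro t
    have h1 : HasDerivAt h (deriv h (circleMap 0 ρ t)) ((ρ : ℂ) * circleMap 0 1 t) := by
      rw [hmul t]
      exact ((hh.1.1 _ (hmem t)).differentiableAt (isOpen_ball.mem_nhds (hmem t))).hasDerivAt
    have h2 : HasDerivAt f (deriv f (h (circleMap 0 ρ t))) (h ((ρ : ℂ) * circleMap 0 1 t)) := by
      rw [hmul t]
      have h3 := hhm _ (hmem t)
      exact ((hf _ h3).differentiableAt (isOpen_ball.mem_nhds h3)).hasDerivAt
    have h4 : HasDerivAt (fun z : ℂ => (ρ : ℂ) * z) ((ρ : ℂ) * 1) (circleMap 0 1 t) :=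
      (hasDerivAt_id _).const_mul _
    have h5 := HasDerivAt.comp (circleMap 0 1 t) (h := fun z : ℂ => h ((ρ : ℂ) * z)) h2
      (HasDerivAt.comp (circleMap 0 1 t) h1 h4)
    rw [mul_one] at h5
    exact h5.deriv
  unfold IM
  rw [← intervalIntegral.integral_const_mul]
  have hc1 : Continuous (fun t : ℝ => deriv h (circleMap 0 ρ t)) :=
    (hh.1.1.deriv isOpen_ball).continuousOn.comp_continuous (continuous_circleMap 0 ρ) hmem
  have hc0 : Continuous (fun t : ℝ => h (circleMap 0 ρ t)) :=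
    hh.1.1.continuousOn.comp_continuous (continuous_circleMap 0 ρ) hmem
  have hc2 : Continuous (fun t : ℝ => deriv f (h (circleMap 0 ρ t))) :=
    (hf.deriv isOpen_ball).continuousOn.comp_continuous hc0 (fun t => hhm _ (hmem t))
  apply intervalIntegral.integral_mono_on (by positivity)
  · exact (Continuous.mul continuous_const hc1.norm).intervalIntegrable _ _
  · have : (fun t : ℝ => ‖deriv (fun z => f (h (ρ * z))) (circleMap 0 1 t)‖) =
        fun t : ℝ => ‖deriv f (h (circleMap 0 ρ t)) * (deriv h (circleMap 0 ρ t) * ρ)‖ := by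
      funext t; rw [hderiv t]
    rw [this]
    exact ((hc2.mul (hc1.mul continuous_const)).norm).intervalIntegrable _ _
  · intro t _
    rw [hderiv t, norm_mul, norm_mul, Complex.norm_real, Real.norm_of_nonneg hρ.le]
    have h1 : c ≤ ‖deriv f (h (circleMap 0 ρ t))‖ := hc _ (hh.2 _ (hmem t))
    have h2 : 0 ≤ ‖deriv h (circleMap 0 ρ t)‖ * ρ := by positivity
    calc ρ * c * ‖deriv h (circleMap 0 ρ t)‖ = c * (‖deriv h (circleMap 0 ρ t)‖ * ρ) := by ring
      _ ≤ _ := mul_le_mul_of_nonneg_right h1 h2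

/-- constants for `f` -/
theorem stl_consts {f : ℂ → ℂ} {R : ℝ} (hR : 1 < R) (hf : Un f (ball 0 R)) :
    ∃ c b Λ : ℝ, 0 < c ∧ 1 ≤ b ∧ 0 < Λ ∧ (∀ z : ℂ, ‖z‖ ≤ 1 → c ≤ ‖deriv f z‖) ∧
      (∀ z : ℂ, ‖z‖ ≤ 1 → ‖f z‖ ≤ b) ∧
      (∀ z w : ℂ, ‖z‖ ≤ 1 → ‖w‖ ≤ 1 → ‖f z - f w‖ ≤ Λ * ‖z - w‖) := by
  have hsub : closedBall (0 : ℂ) 1 ⊆ ball 0 R := closedBall_subset_ball hR
  have hcomp : IsCompact (closedBall (0 : ℂ) 1) := isCompact_closedBall 0 1
  have hne : (closedBall (0 : ℂ) 1).Nonempty := ⟨0, by simp⟩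
  have hcf : ContinuousOn f (closedBall 0 1) := hf.1.continuousOn.mono hsub
  have hcd : ContinuousOn (deriv f) (closedBall 0 1) :=
    (hf.1.deriv isOpen_ball).continuousOn.mono hsub
  obtain ⟨z₀, hz₀, hmin⟩ := hcomp.exists_isMinOn hne hcd.norm
  obtain ⟨z₁, hz₁, hmax⟩ := hcomp.exists_isMaxOn hne hcd.norm
  obtain ⟨z₂, hz₂, hmax2⟩ := hcomp.exists_isMaxOn hne hcf.norm
  have hmem : ∀ z : ℂ, ‖z‖ ≤ 1 → z ∈ closedBall (0 : ℂ) 1 := fun z hz => by
    simpa [mem_closedBall, dist_zero_right] using hz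
  refine ⟨‖deriv f z₀‖, max 1 ‖f z₂‖, ‖deriv f z₁‖ + 1,
    norm_pos_iff.2 (Pool.TU.X5.deriv_ne_zero_of_injOn isOpen_ball hf.1 hf.2 (hsub hz₀)),
    le_max_left _ _, by positivity, ?_, ?_, ?_⟩
  · intro z hz; exact hmin (hmem z hz)
  · intro z hz; exact le_trans (hmax2 (hmem z hz)) (le_max_right _ _)
  · intro z w hz hw
    apply (convex_closedBall (0 : ℂ) 1).norm_image_sub_le_of_norm_deriv_le (𝕜 := ℂ) (f := f)
      (x := w) (y := z) (C := ‖deriv f z₁‖ + 1)
    · intro x hx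
      exact (hf.1 x (hsub hx)).differentiableAt (isOpen_ball.mem_nhds (hsub hx))
    · intro x hx
      have : ‖deriv f x‖ ≤ ‖deriv f z₁‖ := hmax hx
      linarith
    · exact hmem w hw
    · exact hmem z hz

theorem ax1 {A d : ℝ} (hA : 2 ≤ A) (hd : 0 ≤ d) (h : A * d ≤ 1) : d ≤ 1 / 2 := by nlinarith

theorem ax2 {N q c : ℝ} (h1 : 1 ≤ N) (h2 : q ≤ c) (h3 : 0 ≤ q) : q ≤ N * c := by nlinarith

theorem ax3 {A T : ℝ} (hA : 0 < A) (hT : 1 ≤ T) : A ≤ 2 * A * T := by nlinarith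

theorem ax4 {T x : ℝ} (hx : 0 < x) (hT : 1 ≤ T) (h : T * x ≤ 1 / 2) : x ≤ 1 / 2 := by nlinarith

theorem ax5 {a n r : ℝ} (ha : a ≤ 1) (hn0 : 0 ≤ n) (hn : n ≤ r) : a * n ≤ r := by nlinarith

theorem ax6 {d x : ℝ} (hd : 0 ≤ d) (hd1 : d ≤ 1) (hx : 0 ≤ x) (hx1 : x ≤ 1) :
    |(1 - d) * (1 - x) - 1| ≤ d + x := by
  rw [abs_le]
  constructor <;> nlinarith

theorem ax7 {r : ℝ} (h0 : 0 ≤ r) (h1 : r < 1) : (1 - r) ^ 2 ≤ 1 - r := by nlinarith

theorem ax7b {r : ℝ} (h0 : 0 ≤ r) (h1 : r < 1) : (1 - r) ^ 2 ≤ 1 := by nlinarith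

theorem ax8 {N Y L : ℝ} (hN : 1 ≤ N) (hY : 1 ≤ Y) (hL : L ≤ N * (100 * Y + 1)) :
    2 * L + 1 ≤ 203 * N * Y := by
  have h1 : 1 ≤ N * Y := by nlinarith
  have h2 : N ≤ N * Y := by nlinarith
  nlinarith

theorem ax9 {d c : ℝ} (hd : d ≤ 1 / 2) (hc : 0 < c) : c / 2 ≤ (1 - d) * c := by nlinarith

theorem ax10 {b X : ℝ} (hb : 1 ≤ b) (hX : 1 ≤ X) : 4 * b ≤ 4 * b * X := by nlinarith

theorem hStl (hHump : StHump) (hHar : StHar) (hPol : StPol) (hCJU : StCJU) (hTcf : StTcf)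
    (hTcd : StTcd) (hCJC : StCJC) : StStl := by
  intro α γ N hN hγ hαγ hHU f hPL η r₀ j hη hr₀
  obtain ⟨⟨R, hR, hUf⟩, hf0, hfS⟩ := hPL
  obtain ⟨c, b, Λ, hc, hb, hΛ, hcf, hbf, hLf⟩ := stl_consts hR hUf
  -- radius
  set r : ℝ := max r₀ 0 with hr
  have hr0 : 0 ≤ r := le_max_right _ _
  have hr1 : r < 1 := max_lt hr₀ one_pos
  have h1r : 0 < 1 - r := by linarith
  -- exponents
  set γ' : ℝ := (max 0 (1 + α) + γ) / 2 with hγ'
  have hmax : max 0 (1 + α) < γ := max_lt hγ hαγ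
  have hmax0 : 0 ≤ max 0 (1 + α) := le_max_left _ _
  have hmax1 : 1 + α ≤ max 0 (1 + α) := le_max_right _ _
  have hγ'0 : 0 < γ' := by rw [hγ']; linarith
  have hγ'γ : γ' < γ := by rw [hγ']; linarith
  have hαγ' : 1 + α < γ' := by rw [hγ']; linarith
  set e : ℝ := max (1 + α) (γ' / 2) with he
  have he0 : 0 < e := lt_of_lt_of_le (by linarith) (le_max_right _ _)
  have heγ : e < γ' := max_lt hαγ' (by linarith)
  have hαe : 1 + α ≤ e := le_max_left _ _
  obtain ⟨C₆, hC₆, hpow⟩ := stl_pow he0 heγ N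
  have hj0 : (0 : ℝ) ≤ j := Nat.cast_nonneg j
  -- constants
  set K : ℝ := 64000 * π / (3 * c) * ((j + 1) * C₆ + 2 * b) with hK
  set A : ℝ := 2 + j + (4 * Λ + b) / (η * (1 - r) ^ 2) with hA
  obtain ⟨h, ρ, lam, hh, hh0, hhS, hρ, hρ1, hAρ, hlam, hlam1, hdh, hAlam, hIM⟩ :=
    hHump γ' γ hγ'0.le hγ'γ hHU N A K hN
  have hAfrac : 0 ≤ (4 * Λ + b) / (η * (1 - r) ^ 2) := by positivity
  have hA2 : 2 ≤ A := by rw [hA]; linarith
  have hAj : (j : ℝ) ≤ A := by rw [hA]; linarith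
  have hAfr : (4 * Λ + b) / (η * (1 - r) ^ 2) ≤ A := by rw [hA]; linarith
  have hApos : 0 < A := by linarith
  clear_value A K
  set d : ℝ := 1 - ρ with hd
  have hd0 : 0 < d := by rw [hd]; linarith
  have hd1 : d ≤ 1 := by rw [hd]; linarith
  have hρd : ρ = 1 - d := by rw [hd]; ring
  have hd2 : d ≤ 1 / 2 := ax1 hA2 hd0.le hAρ
  have hmem : ∀ z ∈ ball (0 : ℂ) (1 + d), (ρ : ℂ) * z ∈ ball (0 : ℂ) 1 := by
    intro z hz
    rw [mem_ball, dist_zero_right] at hz ⊢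
    rw [norm_mul, Complex.norm_real, Real.norm_of_nonneg hρ.le]
    have h1 := mul_lt_mul_of_pos_left hz hρ
    have h2 : ρ * (1 + d) = 1 - d ^ 2 := by rw [hρd]; ring
    have h3 : 0 < d ^ 2 := by positivity
    linarith
  have hhR : ∀ z ∈ ball (0 : ℂ) 1, h z ∈ ball (0 : ℂ) R := by
    intro z hz
    rw [mem_ball, dist_zero_right]
    exact lt_of_le_of_lt (hh.2 z hz) hR
  set f₂ : ℂ → ℂ := fun z => f (h (ρ * z)) with hf₂
  have hf₂d : DifferentiableOn ℂ f₂ (ball 0 (1 + d)) := by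
    intro z hz
    have h1 : DifferentiableAt ℂ h ((ρ : ℂ) * z) :=
      (hh.1.1 _ (hmem z hz)).differentiableAt (isOpen_ball.mem_nhds (hmem z hz))
    have h2 : DifferentiableAt ℂ f (h ((ρ : ℂ) * z)) :=
      (hUf.1 _ (hhR _ (hmem z hz))).differentiableAt (isOpen_ball.mem_nhds (hhR _ (hmem z hz)))
    have h3 : DifferentiableAt ℂ (fun w : ℂ => (ρ : ℂ) * w) z :=
      differentiableAt_id.const_mul _
    have h4 : DifferentiableAt ℂ (fun w : ℂ => h ((ρ : ℂ) * w)) z :=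
      DifferentiableAt.comp z h1 h3
    exact (DifferentiableAt.comp z (f := fun w : ℂ => h ((ρ : ℂ) * w)) h2
      h4).differentiableWithinAt
  have hρne : (ρ : ℂ) ≠ 0 := ofReal_ne_zero.2 hρ.ne'
  have hf₂i : InjOn f₂ (ball 0 (1 + d)) := by
    intro z hz w hw hzw
    have h1 := hUf.2 (hhR _ (hmem z hz)) (hhR _ (hmem w hw)) hzw
    have h2 := hh.1.2 (hmem z hz) (hmem w hw) h1
    exact mul_left_cancel₀ hρne h2
  have hf₂b : ∀ z ∈ ball (0 : ℂ) (1 + d), ‖f₂ z‖ ≤ b := fun z hz => hbf _ (hh.2 _ (hmem z hz))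
  have hf₂0 : f₂ 0 = 0 := by simp [hf₂, hh0, hf0]
  have hball : ball (0 : ℂ) 1 ⊆ ball 0 (1 + d) := ball_subset_ball (by linarith)
  have hf₂S : Sy N f₂ := by
    intro ω z hω hz
    have h1 : h (ρ * (ω * z)) = ω * h (ρ * z) := by
      have := hhS ω (ρ * z) hω (hmem z (hball hz))
      rw [← this]; congr 1; ring
    show f (h (ρ * (ω * z))) = ω * f (h (ρ * z))
    rw [h1]
    apply hfS ω _ hω
    rw [mem_ball, dist_zero_right]
    exact stl_norm_lt hh _ (hmem z (hball hz))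
  have hIM2 : ρ * c * IM h ρ ≤ IM f₂ 1 := stl_IM hR hUf.1 hh hρ hρ1 hcf
  -- the exponent L
  have hlog : 0 ≤ Real.log (1 / d) := Real.log_nonneg (by rw [le_div_iff₀ hd0]; linarith)
  set q : ℝ := 100 / d * (1 + Real.log (1 / d)) with hq
  have h100 : 100 ≤ 100 / d := by rw [le_div_iff₀ hd0]; linarith
  have hq0 : 100 / d ≤ q := by
    rw [hq]; exact le_mul_of_one_le_right (by positivity) (by linarith)
  have hN1 : (1 : ℝ) ≤ N := by exact_mod_cast hN
  have hqpos : 0 ≤ q := by linarith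
  set L : ℕ := N * ⌈q⌉₊ with hL
  have hLq : q ≤ L := by
    rw [hL]; push_cast
    exact ax2 hN1 (Nat.le_ceil q) hqpos
  have hLq2 : (L : ℝ) ≤ N * (q + 1) := by
    rw [hL]; push_cast
    exact mul_le_mul_of_nonneg_left (Nat.ceil_lt_add_one hqpos).le (by positivity)
  have hdvd : N ∣ L := dvd_mul_right _ _
  clear_value L
  obtain ⟨p, hp1, hp2, hp3⟩ := hPol d f₂ N L hd0 hd1 ⟨hf₂d, hf₂i⟩ hf₂S hN hdvd hLq
  -- the primitive
  have hF : DifferentiableOn ℂ (fun z => 1 / 2000 * deriv f₂ z * z ^ L * p.eval z)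
      (ball 0 (1 + d)) := by
    apply DifferentiableOn.mul
    · apply DifferentiableOn.mul
      · exact (hf₂d.deriv isOpen_ball).const_mul _
      · exact (differentiable_id.pow L).differentiableOn
    · exact p.differentiable.differentiableOn
  obtain ⟨u, hu0, hu⟩ := (hF.isExactOn_ball).with_val_at 0 0
  have hLbig : 100 / d ≤ L := hq0.trans hLq
  have hLd : 1 ≤ (L : ℝ) * d := by
    rw [div_le_iff₀ hd0] at hLbig; linarith
  have hLA : A ≤ L := by
    have h1 : A ≤ 1 / d := by rw [le_div_iff₀ hd0]; exact hAρ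
    have h2 : 1 / d ≤ 100 / d := by
      apply div_le_div_of_nonneg_right _ hd0.le; norm_num
    linarith
  obtain ⟨hinj, hub⟩ := hCJU d f₂ u (fun z => p.eval z) L hd0 hd1 ⟨hf₂d, hf₂i⟩ hLd hp2 hu0 hu
  have hTC := hCJC d b f₂ u (fun z => p.eval z) L L hd0 hd1 hf₂d hf₂b hp1 hu
  set T : ℕ := L + L + 1 with hT
  have hTr : (T : ℝ) = 2 * L + 1 := by rw [hT]; push_cast; ring
  clear_value T
  have hL1 : (1 : ℝ) ≤ L := by linarith
  have hT1 : (1 : ℝ) ≤ T := by rw [hTr]; linarith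
  have hTpos : (0 : ℝ) < T := by linarith
  have hTnat : 1 ≤ T := by exact_mod_cast hT1
  set f₃ : ℂ → ℂ := fun z => f₂ z + u z with hf₃
  have hud : DifferentiableOn ℂ u (ball 0 (1 + d)) :=
    fun z hz => (hu z hz).differentiableAt.differentiableWithinAt
  have hf₃d : DifferentiableOn ℂ f₃ (ball 0 (1 + d)) := hf₂d.add hud
  -- the radius r₃
  set x : ℝ := 1 / (2 * A * T) with hx
  have hx0 : 0 < x := by rw [hx]; positivity
  have hxT : T * x = 1 / (2 * A) := by rw [hx]; field_simp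
  have hxTA : T * x ≤ 1 / 2 := by
    rw [hxT, div_le_div_iff₀ (by positivity) (by norm_num)]; linarith
  have hxA : x ≤ 1 / A := by
    rw [hx]
    exact div_le_div_of_nonneg_left (by norm_num) hApos (ax3 hApos hT1)
  have hx1 : x ≤ 1 / 2 := ax4 hx0 hT1 hxTA
  clear_value x
  set r₃ : ℝ := 1 - x with hr₃
  have hr₃0 : 0 < r₃ := by rw [hr₃]; linarith
  have hr₃1 : r₃ < 1 := by rw [hr₃]; linarith
  have hr₃T : 1 / 2 ≤ r₃ ^ T := by
    have h1 := one_add_mul_le_pow (show (-2 : ℝ) ≤ -x by linarith) T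
    have h2 : (1 + -x) = r₃ := by rw [hr₃]; ring
    rw [h2] at h1
    linarith
  have hmem₃ : ∀ z ∈ ball (0 : ℂ) (1 / r₃), (r₃ : ℂ) * z ∈ ball (0 : ℂ) 1 := by
    intro z hz
    rw [mem_ball, dist_zero_right] at hz ⊢
    rw [norm_mul, Complex.norm_real, Real.norm_of_nonneg hr₃0.le]
    rw [lt_div_iff₀ hr₃0] at hz
    linarith
  have hr₃inv : 1 < 1 / r₃ := by rw [lt_div_iff₀ hr₃0]; linarith
  have hball₃ : ball (0 : ℂ) 1 ⊆ ball 0 (1 / r₃) := ball_subset_ball hr₃inv.le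
  have hr₃ne : (r₃ : ℂ) ≠ 0 := ofReal_ne_zero.2 hr₃0.ne'
  set f₄ : ℂ → ℂ := fun z => f₃ (r₃ * z) with hf₄
  have hf₄d : DifferentiableOn ℂ f₄ (ball 0 (1 / r₃)) := by
    intro z hz
    have hz1 := hball (hmem₃ z hz)
    have h1 : DifferentiableAt ℂ f₃ ((r₃ : ℂ) * z) :=
      (hf₃d _ hz1).differentiableAt (isOpen_ball.mem_nhds hz1)
    have h3 : DifferentiableAt ℂ (fun w : ℂ => (r₃ : ℂ) * w) z :=
      differentiableAt_id.const_mul _
    exact (DifferentiableAt.comp z h1 h3).differentiableWithinAt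
  have hf₄i : InjOn f₄ (ball 0 (1 / r₃)) := by
    intro z hz w hw hzw
    have h1 := hinj (ball_subset_closedBall (hmem₃ z hz)) (ball_subset_closedBall (hmem₃ w hw)) hzw
    exact mul_left_cancel₀ hr₃ne h1
  have hf₄0 : f₄ 0 = 0 := by simp [hf₄, hf₃, hf₂0, hu0]
  have huS : Sy N u := stl_sym hN hdvd (hf₂d.mono hball) hf₂S hu0
    (fun z hz => hu z (hball hz)) hp3
  have hf₄S : Sy N f₄ := by
    intro ω z hω hz
    have hz1 := hmem₃ z (hball₃ hz)
    have h1 : (r₃ : ℂ) * (ω * z) = ω * (r₃ * z) := by ring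
    show f₂ (r₃ * (ω * z)) + u (r₃ * (ω * z)) = ω * (f₂ (r₃ * z) + u (r₃ * z))
    rw [h1, hf₂S ω _ hω hz1, huS ω _ hω hz1]; ring
  refine ⟨f₄, ⟨⟨1 / r₃, hr₃inv, hf₄d, hf₄i⟩, hf₄0, hf₄S⟩, ?_, ?_⟩
  · -- closeness
    intro z hz₀
    have hz : ‖z‖ ≤ r := hz₀.trans (le_max_left _ _)
    have hz1 : ‖z‖ ≤ 1 := by linarith
    have hr3z : ‖(r₃ : ℂ) * z‖ ≤ r := by
      rw [norm_mul, Complex.norm_real, Real.norm_of_nonneg hr₃0.le]
      exact ax5 hr₃1.le (norm_nonneg z) hz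
    set v : ℂ := (ρ : ℂ) * (r₃ * z) with hv
    have hvr : ‖v‖ ≤ r := by
      rw [hv, norm_mul, Complex.norm_real, Real.norm_of_nonneg hρ.le]
      exact ax5 hρ1.le (norm_nonneg _) hr3z
    have hv1 : v ∈ ball (0 : ℂ) 1 := by
      rw [mem_ball, dist_zero_right]; linarith
    have hinvA : 1 / A > 0 := by positivity
    have hdA : d ≤ 1 / A := by rw [le_div_iff₀ hApos]; linarith
    have hlA : 1 - lam ≤ 1 / A := by rw [le_div_iff₀ hApos]; linarith
    have hvz : ‖v - z‖ ≤ 2 / A := by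
      have h1 : v - z = ((ρ * r₃ - 1 : ℝ) : ℂ) * z := by rw [hv]; push_cast; ring
      rw [h1, norm_mul, Complex.norm_real]
      have h2 : ‖ρ * r₃ - 1‖ ≤ d + x := by
        have e1 : ρ * r₃ = (1 - d) * (1 - x) := by rw [hρd]
        rw [Real.norm_eq_abs, e1]
        exact ax6 hd0.le hd1 hx0.le (by linarith)
      have h3 : d + x ≤ 2 / A := by
        have : 2 / A = 1 / A + 1 / A := by ring
        linarith
      calc ‖ρ * r₃ - 1‖ * ‖z‖ ≤ ‖ρ * r₃ - 1‖ * 1 :=
            mul_le_mul_of_nonneg_left hz1 (norm_nonneg _)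
        _ ≤ 2 / A := by linarith
    have hhv : ‖h v - v‖ ≤ 2 / (A * (1 - r)) := by
      have h1 := hHar h lam hh hh0 hdh hlam hlam1 v hv1
      have h2 : (1 - r) * ‖h v - v‖ ≤ 2 * (1 / A) := by
        calc (1 - r) * ‖h v - v‖ ≤ (1 - ‖v‖) * ‖h v - v‖ :=
              mul_le_mul_of_nonneg_right (by linarith) (norm_nonneg _)
          _ ≤ 2 * (1 - lam) := h1
          _ ≤ 2 * (1 / A) := by linarith
      have h3 : 2 / (A * (1 - r)) = 2 * (1 / A) / (1 - r) := by field_simp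
      rw [h3, le_div_iff₀ h1r]
      linarith
    have hI : ‖f (h v) - f z‖ ≤ Λ * (2 / (A * (1 - r)) + 2 / A) := by
      refine (hLf (h v) z (hh.2 v hv1) hz1).trans ?_
      apply mul_le_mul_of_nonneg_left _ hΛ.le
      calc ‖h v - z‖ = ‖(h v - v) + (v - z)‖ := by ring_nf
        _ ≤ ‖h v - v‖ + ‖v - z‖ := norm_add_le _ _
        _ ≤ _ := add_le_add hhv hvz
    have hSb : ∀ w : ℂ, ‖w‖ ≤ r → ‖deriv f₂ w‖ ≤ b / (1 - r) := by
      intro w hw
      have hsub : closedBall w (1 - r) ⊆ ball 0 (1 + d) := by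
        intro y hy
        rw [mem_closedBall, dist_eq_norm] at hy
        rw [mem_ball, dist_zero_right]
        have : ‖y‖ ≤ ‖y - w‖ + ‖w‖ := by
          have := norm_add_le (y - w) w
          simpa using this
        linarith
      apply Complex.norm_deriv_le_of_forall_mem_sphere_norm_le h1r
      · apply DifferentiableOn.diffContOnCl
        rw [closure_ball w h1r.ne']
        exact hf₂d.mono hsub
      · intro y hy
        exact hf₂b y (hsub (sphere_subset_closedBall hy))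
    have hII : ‖u ((r₃ : ℂ) * z)‖ ≤ b / (A * (1 - r) ^ 2) := by
      have h1 := hub r (b / (1 - r)) hr0 hr1 hSb _ hr3z
      have h2 : r ^ L * (A * (1 - r)) ≤ 1 := by
        have h3 : r ≤ Real.exp (-(1 - r)) := by
          have := Real.add_one_le_exp (-(1 - r)); linarith
        have h4 : r ^ L ≤ Real.exp (-(L * (1 - r))) := by
          calc r ^ L ≤ (Real.exp (-(1 - r))) ^ L := pow_le_pow_left₀ hr0 h3 L
            _ = Real.exp (-(L * (1 - r))) := by rw [← Real.exp_nat_mul]; congr 1; ring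
        have h5 : (L : ℝ) * (1 - r) ≤ Real.exp (L * (1 - r)) := by
          have := Real.add_one_le_exp ((L : ℝ) * (1 - r)); linarith
        have h6 : Real.exp (-(L * (1 - r))) * Real.exp (L * (1 - r)) = 1 := by
          rw [← Real.exp_add]; simp
        have h7 : 0 < Real.exp (-(L * (1 - r))) := Real.exp_pos _
        calc r ^ L * (A * (1 - r)) ≤ Real.exp (-(L * (1 - r))) * (L * (1 - r)) := by
              apply mul_le_mul h4 _ (by positivity) h7.le
              exact mul_le_mul_of_nonneg_right hLA h1r.le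
          _ ≤ Real.exp (-(L * (1 - r))) * Real.exp (L * (1 - r)) :=
              mul_le_mul_of_nonneg_left h5 h7.le
          _ = 1 := h6
      refine h1.trans ?_
      rw [le_div_iff₀ (by positivity)]
      calc r ^ L * (b / (1 - r)) * (A * (1 - r) ^ 2) = (r ^ L * (A * (1 - r))) * b := by
            field_simp
        _ ≤ 1 * b := mul_le_mul_of_nonneg_right h2 (by linarith)
        _ = b := one_mul b
    have hsum : Λ * (2 / (A * (1 - r)) + 2 / A) + b / (A * (1 - r) ^ 2) ≤ η := by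
      have h1 : 2 / (A * (1 - r)) ≤ 2 / (A * (1 - r) ^ 2) := by
        apply div_le_div_of_nonneg_left (by norm_num) (by positivity)
        exact mul_le_mul_of_nonneg_left (ax7 hr0 hr1) hApos.le
      have h2 : 2 / A ≤ 2 / (A * (1 - r) ^ 2) := by
        apply div_le_div_of_nonneg_left (by norm_num) (by positivity)
        exact mul_le_of_le_one_right hApos.le (ax7b hr0 hr1)
      have h3 : Λ * (2 / (A * (1 - r)) + 2 / A) ≤ Λ * (4 / (A * (1 - r) ^ 2)) := by
        apply mul_le_mul_of_nonneg_left _ hΛ.le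
        have : 4 / (A * (1 - r) ^ 2) = 2 / (A * (1 - r) ^ 2) + 2 / (A * (1 - r) ^ 2) := by ring
        linarith
      have h4 : Λ * (4 / (A * (1 - r) ^ 2)) + b / (A * (1 - r) ^ 2) =
          (4 * Λ + b) / (A * (1 - r) ^ 2) := by ring
      have h5 : (4 * Λ + b) / (A * (1 - r) ^ 2) ≤ η := by
        rw [div_le_iff₀ (by positivity)]
        rw [div_le_iff₀ (by positivity)] at hAfr
        calc 4 * Λ + b ≤ A * (η * (1 - r) ^ 2) := hAfr
          _ = η * (A * (1 - r) ^ 2) := by ring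
      linarith
    have hsplit : f₄ z - f z = (f (h v) - f z) + u ((r₃ : ℂ) * z) := by
      show f (h (ρ * (r₃ * z))) + u (r₃ * z) - f z = _
      rw [← hv]; ring
    rw [hsplit]
    calc ‖(f (h v) - f z) + u ((r₃ : ℂ) * z)‖ ≤ ‖f (h v) - f z‖ + ‖u ((r₃ : ℂ) * z)‖ :=
          norm_add_le _ _
      _ ≤ _ := add_le_add hI hII
      _ ≤ η := hsum
  · -- the event
    apply stl_rob hTcf (hf₄d.mono hball₃) hTnat
    · have : (j : ℝ) ≤ T := by rw [hTr]; linarith
      exact_mod_cast this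
    have htc : tc f₄ T = (r₃ : ℂ) ^ T * tc f₃ T :=
      hTcd.2.1 f₃ r₃ T hr₃0 hr₃1.le (hf₃d.mono hball)
    have htcn : ‖tc f₄ T‖ = r₃ ^ T * ‖tc f₃ T‖ := by
      rw [htc, norm_mul, norm_pow, Complex.norm_real, Real.norm_of_nonneg hr₃0.le]
    have hexp : (T : ℝ) * (1 + d) ^ (-(T : ℝ)) ≤ 4 := by
      apply stl_exp hd0 hd1
      have : 200 / d * (1 + Real.log (1 / d)) = 2 * q := by rw [hq]; ring
      rw [this, hTr]; linarith
    have hX : 1 ≤ d ^ (-γ') := by
      apply Real.one_le_rpow_of_pos_of_le_one_of_nonpos hd0 hd1; linarith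
    have hTe : (T : ℝ) ^ e ≤ C₆ * d ^ (-γ') := by
      apply hpow d T hd0 hd1
      have h1 : 1 ≤ 1 / d * (1 + Real.log (1 / d)) := by
        have : 1 ≤ 1 / d := by rw [le_div_iff₀ hd0]; linarith
        exact one_le_mul_of_one_le_of_one_le this (by linarith)
      have h2 : q = 100 * (1 / d * (1 + Real.log (1 / d))) := by rw [hq]; ring
      rw [hTr]
      set Y : ℝ := 1 / d * (1 + Real.log (1 / d)) with hY
      rw [h2] at hLq2
      exact ax8 hN1 h1 hLq2
    have hTa : (T : ℝ) * (T : ℝ) ^ α ≤ C₆ * d ^ (-γ') := by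
      have h1 : (T : ℝ) * (T : ℝ) ^ α = (T : ℝ) ^ (1 + α) := by
        rw [Real.rpow_add hTpos, Real.rpow_one]
      rw [h1]
      exact (Real.rpow_le_rpow_of_exponent_le hT1 hαe).trans hTe
    set X : ℝ := d ^ (-γ') with hXdef
    have hIM3 : c / 2 * (K * X) ≤ IM f₂ 1 := by
      refine le_trans ?_ hIM2
      have h1 : c / 2 ≤ ρ * c := by
        rw [hρd]; exact ax9 hd2 hc
      have hKpos : 0 < K := by rw [hK]; positivity
      have h2 : 0 ≤ K * X := by positivity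
      calc c / 2 * (K * X) ≤ ρ * c * (K * X) := mul_le_mul_of_nonneg_right h1 h2
        _ ≤ ρ * c * IM h ρ := mul_le_mul_of_nonneg_left hIM.le (by positivity)
    have hmain : 2 * ((j + 1) * (C₆ * X)) ≤ (T : ℝ) * ‖tc f₃ T‖ := by
      refine le_trans ?_ hTC
      have h1 : (T : ℝ) * b * (1 + d) ^ (-(T : ℝ)) ≤ 4 * b := by
        calc (T : ℝ) * b * (1 + d) ^ (-(T : ℝ)) = (T * (1 + d) ^ (-(T : ℝ))) * b := by ring
          _ ≤ 4 * b := mul_le_mul_of_nonneg_right hexp (by linarith)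
      have h2 : 3 / 16000 / π * (c / 2 * (K * X)) ≤ 3 / 16000 / π * IM f₂ 1 :=
        mul_le_mul_of_nonneg_left hIM3 (by positivity)
      have h3 : 3 / 16000 / π * (c / 2 * (K * X)) = 2 * (((j + 1) * C₆ + 2 * b) * X) := by
        rw [hK]; field_simp; ring
      rw [h3] at h2
      have h4 : 4 * b ≤ 4 * b * X := ax10 hb hX
      have h5 : 2 * (((j + 1) * C₆ + 2 * b) * X) = 2 * ((j + 1) * (C₆ * X)) + 4 * b * X := by ring
      rw [h5] at h2
      linarith
    have hfin : (T : ℝ) * (((j : ℝ) + 1) * (T : ℝ) ^ α) ≤ T * ‖tc f₄ T‖ := by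
      rw [htcn]
      have h1 : 0 ≤ (T : ℝ) * ‖tc f₃ T‖ := by positivity
      have h2 : (j + 1) * ((T : ℝ) * (T : ℝ) ^ α) ≤ (j + 1) * (C₆ * X) :=
        mul_le_mul_of_nonneg_left hTa (by positivity)
      calc (T : ℝ) * (((j : ℝ) + 1) * (T : ℝ) ^ α) = (j + 1) * ((T : ℝ) * (T : ℝ) ^ α) := by ring
        _ ≤ (j + 1) * (C₆ * X) := h2
        _ ≤ 1 / 2 * ((T : ℝ) * ‖tc f₃ T‖) := by linarith
        _ ≤ r₃ ^ T * ((T : ℝ) * ‖tc f₃ T‖) := mul_le_mul_of_nonneg_right hr₃T h1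
        _ = T * (r₃ ^ T * ‖tc f₃ T‖) := by ring
    exact le_of_mul_le_mul_left hfin hTpos

end Pool.Agent.Helper76.LT
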