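import Pool.Agent.Helper69.LT.St
import Pool.Agent.Helper84.LE.BGR

/-! # Project LT (MP_65faa7), module Lim: the limit equations -/

set_option autoImplicit false
set_option linter.unusedSectionVars false

open scoped BigOperators ENNReal Topology
open Pool.LE Pool.NL Filter

namespace Pool.LT

namespace LimM

/-- bound for an alternating series -/
theorem alt_bound {X : Type} (w : X → ENNReal) (F : ℕ → X → ℝ) (C : ENNReal)
    (h : ∀ N : ℕ, ∑' x, w x * ENNReal.ofReal |F N x| ≤ C * (1 / 2) ^ N) :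
    ∑' x, w x * ENNReal.ofReal |∑' N : ℕ, (-1 : ℝ) ^ N * F N x| ≤ 2 * C := by
  have h1 : ∀ x, ENNReal.ofReal |∑' N : ℕ, (-1 : ℝ) ^ N * F N x| ≤
      ∑' N : ℕ, ENNReal.ofReal |F N x| := by
    intro x
    have h2 := enorm_tsum_le_tsum_enorm (f := fun N : ℕ => (-1 : ℝ) ^ N * F N x)
    simp only [Real.enorm_eq_ofReal_abs, abs_mul, abs_pow, abs_neg, abs_one, one_pow,
      one_mul] at h2
    exact h2
  calc ∑' x, w x * ENNReal.ofReal |∑' N : ℕ, (-1 : ℝ) ^ N * F N x|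
      ≤ ∑' x, w x * ∑' N : ℕ, ENNReal.ofReal |F N x| :=
        ENNReal.tsum_le_tsum fun x => mul_le_mul' le_rfl (h1 x)
    _ = ∑' x, ∑' N : ℕ, w x * ENNReal.ofReal |F N x| :=
        tsum_congr fun x => ENNReal.tsum_mul_left.symm
    _ = ∑' N : ℕ, ∑' x, w x * ENNReal.ofReal |F N x| := ENNReal.tsum_comm
    _ ≤ ∑' N : ℕ, C * (1 / 2) ^ N := ENNReal.tsum_le_tsum h
    _ = 2 * C := by
        rw [ENNReal.tsum_mul_left, ENNReal.tsum_geometric, one_div, ENNReal.one_sub_inv_two,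
          inv_inv, mul_comm]

theorem real_bound (f : ℕ → ℝ) (C : ENNReal) (hC : C ≠ ⊤)
    (h : ∀ N : ℕ, ENNReal.ofReal |f N| ≤ C * (1 / 2) ^ N) (N : ℕ) :
    |f N| ≤ C.toReal * (1 / 2) ^ N := by
  have hfin : C * (1 / 2) ^ N ≠ ⊤ := by
    refine ENNReal.mul_ne_top hC (ENNReal.pow_ne_top ?_)
    norm_num
  have h1 := ENNReal.toReal_mono hfin (h N)
  rw [ENNReal.toReal_ofReal (abs_nonneg _), ENNReal.toReal_mul, ENNReal.toReal_pow] at h1
  simpa using h1

theorem alt_tendsto (w : ENNReal) (hw : 1 ≤ w) (f : ℕ → ℝ) (C : ENNReal) (hC : C ≠ ⊤)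
    (h : ∀ N : ℕ, w * ENNReal.ofReal |f N| ≤ C * (1 / 2) ^ N) :
    Tendsto (fun M : ℕ => ∑ N ∈ Finset.range (M + 1), (-1 : ℝ) ^ N * f N) atTop
      (𝓝 (∑' N : ℕ, (-1 : ℝ) ^ N * f N)) := by
  have h1 : ∀ N : ℕ, ENNReal.ofReal |f N| ≤ C * (1 / 2) ^ N := fun N =>
    le_trans (le_mul_of_one_le_left' hw) (h N)
  have hs : Summable (fun N : ℕ => (-1 : ℝ) ^ N * f N) := by
    refine Summable.of_norm_bounded (g := fun N : ℕ => C.toReal * (1 / 2) ^ N)
      (summable_geometric_two.mul_left _) (fun N => ?_)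
    rw [Real.norm_eq_abs, abs_mul, abs_pow, abs_neg, abs_one, one_pow, one_mul]
    exact real_bound f C hC h1 N
  exact (hs.hasSum.tendsto_sum_nat).comp (tendsto_add_atTop_nat 1)

theorem rem_tendsto (f : ℕ → ℝ) (C : ENNReal) (hC : C ≠ ⊤)
    (h : ∀ N : ℕ, ENNReal.ofReal |f N| ≤ C * (1 / 2) ^ N) :
    Tendsto (fun M : ℕ => (-1 : ℝ) ^ (M + 1) * f (M + 1)) atTop (𝓝 0) := by
  have h0 : Tendsto (fun M : ℕ => C.toReal * (1 / 2 : ℝ) ^ (M + 1)) atTop (𝓝 0) := by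
    have h1 : Tendsto (fun M : ℕ => C.toReal * (1 / 2 : ℝ) ^ M) atTop (𝓝 (C.toReal * 0)) :=
      (tendsto_pow_atTop_nhds_zero_of_lt_one (by norm_num) (by norm_num)).const_mul _
    rw [mul_zero] at h1
    exact h1.comp (tendsto_add_atTop_nat 1)
  refine squeeze_zero_norm (fun M => ?_) h0
  rw [Real.norm_eq_abs, abs_mul, abs_pow, abs_neg, abs_one, one_pow, one_mul]
  exact real_bound f C hC h (M + 1)

theorem pow_mul_fst (N : ℕ) (a : DualNumber ℝ) :
    ((-1) ^ N * a).fst = (-1 : ℝ) ^ N * a.fst ∧ ((-1) ^ N * a).snd = (-1 : ℝ) ^ N * a.snd := by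
  rcases Nat.even_or_odd N with h | h
  · rw [h.neg_one_pow, h.neg_one_pow, one_mul, one_mul, one_mul]
    exact ⟨rfl, rfl⟩
  · rw [h.neg_one_pow, h.neg_one_pow, neg_mul, neg_mul, neg_mul, one_mul, one_mul, one_mul]
    exact ⟨rfl, rfl⟩

theorem le_Nl_fst (lam : ENNReal) (a : DualNumber ℝ) : ENNReal.ofReal |a.fst| ≤ Nl lam a :=
  le_self_add

theorem le_Nl_snd (lam : ENNReal) (a : DualNumber ℝ) : lam * ENNReal.ofReal |a.snd| ≤ Nl lam a :=
  le_add_self

theorem inv_bound {lam eta X Y : ENNReal} (hlam : lam = eta⁻¹) (heta : eta ≠ ⊤) (hY : Y ≠ ⊤)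
    (h : lam * X ≤ Y) : X ≤ Y * eta := by
  rw [hlam, mul_comm, ← div_eq_mul_inv] at h
  exact (ENNReal.div_le_iff_le_mul (Or.inr hY) (Or.inl heta)).1 h

variable {V : Type} [DecidableEq V]

theorem gM_fst (E : Finset (Sym2 V)) (p : ℝ) (L : Finset V) (r : V → DualNumber ℝ) (M : ℕ)
    (v x : V) :
    (gM E p L r M v x).fst = ∑ N ∈ Finset.range (M + 1),
      (-1 : ℝ) ^ N * (((Lop E p L r)^[N] (WT E p L r)) {v} v x).fst ∧
    (gM E p L r M v x).snd = ∑ N ∈ Finset.range (M + 1),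
      (-1 : ℝ) ^ N * (((Lop E p L r)^[N] (WT E p L r)) {v} v x).snd := by
  unfold gM
  rw [TrivSqZeroExt.fst_sum, TrivSqZeroExt.snd_sum]
  exact ⟨Finset.sum_congr rfl fun N _ => (pow_mul_fst N _).1,
    Finset.sum_congr rfl fun N _ => (pow_mul_fst N _).2⟩

theorem pM_fst (E : Finset (Sym2 V)) (p : ℝ) (L : Finset V) (r : V → DualNumber ℝ) (M : ℕ)
    (v : V) (ub : V × V) :
    (pM E p L r M v ub).fst = ∑ N ∈ Finset.range (M + 1),
      (-1 : ℝ) ^ N * (((Lop E p L r)^[N] (W3 E p L r)) {v} v ub).fst ∧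
    (pM E p L r M v ub).snd = ∑ N ∈ Finset.range (M + 1),
      (-1 : ℝ) ^ N * (((Lop E p L r)^[N] (W3 E p L r)) {v} v ub).snd := by
  unfold pM
  rw [TrivSqZeroExt.fst_sum, TrivSqZeroExt.snd_sum]
  exact ⟨Finset.sum_congr rfl fun N _ => (pow_mul_fst N _).1,
    Finset.sum_congr rfl fun N _ => (pow_mul_fst N _).2⟩

theorem GT_fst (hNl : SNl) (hProd : SProd) (E : Finset (Sym2 V)) (p : ℝ) (L : Finset V)
    (ρ k : V → ℝ) (hρ : ∀ y, 0 ≤ ρ y ∧ ρ y ≤ 1) (v x : V) :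
    (GT E p L (dw ρ k) v x).fst = G0 E p L ρ v x ∧
    (GT E p L (dw ρ k) v x).snd = - G1 E p L ρ k v x := by
  obtain ⟨-, -, -, -, -, -, -, -, -, hfs⟩ := hNl 0
  unfold GT
  rw [(hfs V E p _).1, (hfs V E p _).2]
  constructor
  · unfold G0 ex
    congr 1
    funext ω
    exact (hProd V L ρ k ω v x ∅ hρ).1
  · unfold G1 ex Ex
    rw [← Finset.sum_neg_distrib]
    refine Finset.sum_congr rfl fun ω _ => ?_
    simp only
    rw [(hProd V L ρ k ω v x ∅ hρ).2.1, smul_neg]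

open Classical in
theorem regroup (E : Finset (Sym2 V)) (L : Finset V) (p : ℝ) (hEL : ∀ e ∈ E, ∀ v ∈ e, v ∈ L)
    (F : V × V → ℝ) (H : V → ℝ) :
    ∑ b ∈ L, (∑ ub ∈ (drt E).filter (fun ub => ub.2 = b), p * F ub) * H b =
      ∑ ub ∈ drt E, p * (F ub * H ub.2) := by
  rw [← Finset.sum_fiberwise_of_maps_to (s := drt E) (t := L) (g := fun ub => ub.2)
    (fun ub hub => hEL _ (mem_drt'.1 hub) _ (Sym2.mem_mk_right _ _))]
  refine Finset.sum_congr rfl fun b _ => ?_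
  rw [Finset.sum_mul]
  refine Finset.sum_congr rfl fun ub hub => ?_
  rw [(Finset.mem_filter.1 hub).2, mul_assoc]

open Classical in
theorem P_bound (E : Finset (Sym2 V)) (p : ℝ) (hp0 : 0 ≤ p) (hp1 : p ≤ 1 / 2)
    (q : V → V → ENNReal) (nbf : V → Finset V) (hq : ∀ x y z, q x z ≤ q x y * q y z)
    (q4 : ∀ u, ∀ b ∈ nbf u, q u b ≤ 4) (nbE : ∀ u b, s(u, b) ∈ E → b ∈ nbf u) (v : V)
    (F : V × V → ℝ) (C : ENNReal)
    (h : ∑' ub : V × V, (if ub.2 ∈ nbf ub.1 then q v ub.1 else 0) * ENNReal.ofReal |F ub| ≤ C) :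
    ∑' x : V, q v x * ENNReal.ofReal |∑ ub ∈ (drt E).filter (fun ub => ub.2 = x), p * F ub| ≤
      4 * C := by
  set c : V × V → ENNReal := fun ub =>
    4 * ((if ub.2 ∈ nbf ub.1 then q v ub.1 else 0) * ENNReal.ofReal |F ub|) with hc
  have h1 : ∀ x : V, q v x * ENNReal.ofReal |∑ ub ∈ (drt E).filter (fun ub => ub.2 = x), p * F ub|
      ≤ ∑ ub ∈ drt E, if ub.2 = x then c ub else 0 := by
    intro x
    rw [← Finset.sum_filter]
    calc q v x * ENNReal.ofReal |∑ ub ∈ (drt E).filter (fun ub => ub.2 = x), p * F ub|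
        ≤ q v x * ∑ ub ∈ (drt E).filter (fun ub => ub.2 = x), ENNReal.ofReal |p * F ub| := by
          refine mul_le_mul' le_rfl ?_
          rw [← ENNReal.ofReal_sum_of_nonneg (fun _ _ => abs_nonneg _)]
          exact ENNReal.ofReal_le_ofReal (Finset.abs_sum_le_sum_abs _ _)
      _ = ∑ ub ∈ (drt E).filter (fun ub => ub.2 = x), q v x * ENNReal.ofReal |p * F ub| :=
          Finset.mul_sum _ _ _
      _ ≤ ∑ ub ∈ (drt E).filter (fun ub => ub.2 = x), c ub := by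
          refine Finset.sum_le_sum fun ub hub => ?_
          obtain ⟨h2, h3⟩ := Finset.mem_filter.1 hub
          have h4 : ub.2 ∈ nbf ub.1 := nbE _ _ (mem_drt'.1 h2)
          rw [hc]
          simp only
          rw [if_pos h4, ← mul_assoc]
          refine mul_le_mul' ?_ ?_
          · rw [← h3, mul_comm]
            exact le_trans (hq v ub.1 ub.2) (mul_le_mul' le_rfl (q4 _ _ h4))
          · apply ENNReal.ofReal_le_ofReal
            rw [abs_mul, abs_of_nonneg hp0]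
            have h5 : p ≤ 1 := by linarith
            exact mul_le_of_le_one_left (abs_nonneg _) h5
  calc ∑' x : V, q v x * ENNReal.ofReal |∑ ub ∈ (drt E).filter (fun ub => ub.2 = x), p * F ub|
      ≤ ∑' x : V, ∑ ub ∈ drt E, if ub.2 = x then c ub else 0 := ENNReal.tsum_le_tsum h1
    _ = ∑ ub ∈ drt E, ∑' x : V, if ub.2 = x then c ub else 0 :=
        Summable.tsum_finsetSum fun _ _ => ENNReal.summable
    _ = ∑ ub ∈ drt E, c ub := by
        refine Finset.sum_congr rfl fun ub _ => ?_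
        rw [tsum_eq_single ub.2 (fun x hx => if_neg (Ne.symm hx)), if_pos rfl]
    _ ≤ ∑' ub : V × V, c ub := ENNReal.sum_le_tsum _
    _ = 4 * ∑' ub : V × V, (if ub.2 ∈ nbf ub.1 then q v ub.1 else 0) * ENNReal.ofReal |F ub| :=
        ENNReal.tsum_mul_left
    _ ≤ 4 * C := mul_le_mul' le_rfl h

end LimM

open LimM in
open Classical in
theorem hLim : SNl → SProd → SExp → SLin → SSum0 → SSum1 → SLim := by
  intro hNl hProd hExp _ hSum0 hSum1
  intro V _ L ρ k E p T K q nbf B eps eta D hEnv hρ hEL hB1 hBt hqt heta hsm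
  set r : V → DualNumber ℝ := dw ρ k with hr
  set a : ℕ → V → V → DualNumber ℝ := fun N v x => ((Lop E p L r)^[N] (WT E p L r)) {v} v x
    with ha
  set b : ℕ → V → V × V → DualNumber ℝ := fun N v ub => ((Lop E p L r)^[N] (W3 E p L r)) {v} v ub
    with hb
  set dd : ℕ → V → V → DualNumber ℝ := fun N v x => ((Lop E p L r)^[N] (DT E p L r)) {v} v x
    with hdd
  set wb : V → V × V → ENNReal := fun v ub => if ub.2 ∈ nbf ub.1 then q v ub.1 else 0 with hwb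
  have hq1 : ∀ x y, 1 ≤ q x y := hEnv.wk.one_le_q
  have hC : (220 * B ^ 3 : ENNReal) ≠ ⊤ :=
    ENNReal.mul_ne_top (by norm_num) (ENNReal.pow_ne_top hBt)
  have hCD : (220 * D * B ^ 3 : ENNReal) ≠ ⊤ :=
    ENNReal.mul_ne_top (ENNReal.mul_ne_top (by norm_num) (ENNReal.natCast_ne_top D))
      (ENNReal.pow_ne_top hBt)
  have hhalf : ∀ N : ℕ, ((1 / 2 : ENNReal)) ^ N ≠ ⊤ := fun N => ENNReal.pow_ne_top (by norm_num)
  have hS0 := hSum1 V L ρ k 0 E p T K q nbf B eps eta D hEnv hρ (by rw [zero_mul]; exact zero_le_one) hsm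
  have hS1 := hSum1 V L ρ k eta⁻¹ E p T K q nbf B eps eta D hEnv hρ
    (ENNReal.inv_mul_le_one eta) hsm
  have hS2 := hSum1 V L ρ k (1 + eta)⁻¹ E p T K q nbf B eps eta D hEnv hρ
    (le_trans (mul_le_mul' le_rfl le_add_self) (ENNReal.inv_mul_le_one (1 + eta))) hsm
  have hA0 : ∀ v (N : ℕ), ∑' x, q v x * ENNReal.ofReal |(a N v x).fst| ≤
      (220 * B ^ 3) * (1 / 2) ^ N := fun v N =>
    le_trans (ENNReal.tsum_le_tsum fun x => mul_le_mul' le_rfl (le_Nl_fst 0 _)) ((hS0 v).1 N)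
  have hA1 : ∀ v (N : ℕ), ∑' x, q v x * ENNReal.ofReal |(a N v x).snd| ≤
      (220 * B ^ 3 * eta) * (1 / 2) ^ N := by
    intro v N
    have h1 := (hS1 v).1 N
    have h2 : eta⁻¹ * ∑' x, q v x * ENNReal.ofReal |(a N v x).snd| ≤ 220 * B ^ 3 * (1 / 2) ^ N := by
      rw [← ENNReal.tsum_mul_left]
      refine le_trans (ENNReal.tsum_le_tsum fun x => ?_) h1
      rw [mul_left_comm]
      exact mul_le_mul' le_rfl (le_Nl_snd _ _)
    have h3 := inv_bound rfl heta (ENNReal.mul_ne_top hC (hhalf N)) h2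
    rwa [mul_right_comm] at h3
  have hB0 : ∀ v (N : ℕ), ∑' ub, wb v ub * ENNReal.ofReal |(b N v ub).fst| ≤
      (220 * D * B ^ 3) * (1 / 2) ^ N := fun v N =>
    le_trans (ENNReal.tsum_le_tsum fun x => mul_le_mul' le_rfl (le_Nl_fst 0 _)) ((hS0 v).2.1 N)
  have hB1' : ∀ v (N : ℕ), ∑' ub, wb v ub * ENNReal.ofReal |(b N v ub).snd| ≤
      (220 * D * B ^ 3 * eta) * (1 / 2) ^ N := by
    intro v N
    have h1 := (hS1 v).2.1 N
    have h2 : eta⁻¹ * ∑' ub, wb v ub * ENNReal.ofReal |(b N v ub).snd| ≤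
        220 * D * B ^ 3 * (1 / 2) ^ N := by
      rw [← ENNReal.tsum_mul_left]
      refine le_trans (ENNReal.tsum_le_tsum fun x => ?_) h1
      rw [mul_left_comm]
      exact mul_le_mul' le_rfl (le_Nl_snd _ _)
    have h3 := inv_bound rfl heta (ENNReal.mul_ne_top hCD (hhalf N)) h2
    rwa [mul_right_comm] at h3
  have hwb1 : ∀ v, ∀ ub ∈ drt E, 1 ≤ wb v ub := by
    intro v ub hub
    rw [hwb]
    simp only
    rw [if_pos (hEnv.nbE _ _ (mem_drt'.1 hub))]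
    exact hq1 _ _
  -- the remainder
  have hR0 : ∀ v x (N : ℕ), ENNReal.ofReal |(dd N v x).fst| ≤ B * (1 / 2) ^ N := by
    intro v x N
    have h1 := (hS0 v).2.2 N x
    rw [mul_zero, zero_mul, add_zero, one_mul] at h1
    exact le_trans (le_Nl_fst 0 _) h1
  set S₂ : ENNReal := (1 + 3 * (1 + eta)⁻¹ * ∑ y ∈ L, ENNReal.ofReal |k y|) * B * (1 + eta) with hS₂
  have h1e : (1 + eta : ENNReal) ≠ ⊤ := ENNReal.add_ne_top.2 ⟨ENNReal.one_ne_top, heta⟩
  have h1e0 : (1 + eta : ENNReal) ≠ 0 := by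
    intro h
    rw [add_eq_zero] at h
    exact one_ne_zero h.1
  have hS₃ : ((1 + 3 * (1 + eta)⁻¹ * ∑ y ∈ L, ENNReal.ofReal |k y|) * B : ENNReal) ≠ ⊤ := by
    refine ENNReal.mul_ne_top (ENNReal.add_ne_top.2 ⟨ENNReal.one_ne_top, ?_⟩) hBt
    refine ENNReal.mul_ne_top (ENNReal.mul_ne_top (by norm_num) (ENNReal.inv_ne_top.2 h1e0)) ?_
    exact ENNReal.sum_ne_top.2 fun y _ => ENNReal.ofReal_ne_top
  have hR1 : ∀ v x (N : ℕ), ENNReal.ofReal |(dd N v x).snd| ≤ S₂ * (1 / 2) ^ N := by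
    intro v x N
    have h1 := (hS2 v).2.2 N x
    have h2 := inv_bound rfl h1e (ENNReal.mul_ne_top hS₃ (hhalf N)) (le_trans (le_Nl_snd _ _) h1)
    rwa [mul_right_comm] at h2
  -- the limits
  have hlA0 : ∀ v x, Tendsto (fun M : ℕ => (gM E p L r M v x).fst) atTop
      (𝓝 (∑' N : ℕ, (-1 : ℝ) ^ N * (a N v x).fst)) := by
    intro v x
    simp_rw [(gM_fst E p L r _ v x).1]
    exact alt_tendsto (q v x) (hq1 v x) (fun N => (a N v x).fst) _ hC
      (fun N => le_trans (ENNReal.le_tsum x) (hA0 v N))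
  have hlA1 : ∀ v x, Tendsto (fun M : ℕ => (gM E p L r M v x).snd) atTop
      (𝓝 (∑' N : ℕ, (-1 : ℝ) ^ N * (a N v x).snd)) := by
    intro v x
    simp_rw [(gM_fst E p L r _ v x).2]
    exact alt_tendsto (q v x) (hq1 v x) (fun N => (a N v x).snd) _ (ENNReal.mul_ne_top hC heta)
      (fun N => le_trans (ENNReal.le_tsum x) (hA1 v N))
  have hlB0 : ∀ v, ∀ ub ∈ drt E, Tendsto (fun M : ℕ => (pM E p L r M v ub).fst) atTop
      (𝓝 (∑' N : ℕ, (-1 : ℝ) ^ N * (b N v ub).fst)) := by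
    intro v ub hub
    simp_rw [(pM_fst E p L r _ v ub).1]
    exact alt_tendsto (wb v ub) (hwb1 v ub hub) (fun N => (b N v ub).fst) _ hCD
      (fun N => le_trans (ENNReal.le_tsum ub) (hB0 v N))
  have hlB1 : ∀ v, ∀ ub ∈ drt E, Tendsto (fun M : ℕ => (pM E p L r M v ub).snd) atTop
      (𝓝 (∑' N : ℕ, (-1 : ℝ) ^ N * (b N v ub).snd)) := by
    intro v ub hub
    simp_rw [(pM_fst E p L r _ v ub).2]
    exact alt_tendsto (wb v ub) (hwb1 v ub hub) (fun N => (b N v ub).snd) _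
      (ENNReal.mul_ne_top hCD heta) (fun N => le_trans (ENNReal.le_tsum ub) (hB1' v N))
  refine ⟨fun v x => ∑' N : ℕ, (-1 : ℝ) ^ N * (a N v x).fst,
    fun v x => ∑' N : ℕ, (-1 : ℝ) ^ N * (a N v x).snd,
    fun v x => ∑ ub ∈ (drt E).filter (fun ub => ub.2 = x),
      p * ∑' N : ℕ, (-1 : ℝ) ^ N * (b N v ub).fst,
    fun v x => ∑ ub ∈ (drt E).filter (fun ub => ub.2 = x),
      p * ∑' N : ℕ, (-1 : ℝ) ^ N * (b N v ub).snd, ?_, ?_, ?_, ?_, ?_, ?_⟩
  · intro v x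
    rw [regroup E L p hEL (fun ub => ∑' N : ℕ, (-1 : ℝ) ^ N * (b N v ub).fst)
      (fun b => G0 E p L ρ b x)]
    have h1 : ∀ M : ℕ, G0 E p L ρ v x = (gM E p L r M v x).fst +
        ∑ ub ∈ drt E, p * ((pM E p L r M v ub).fst * G0 E p L ρ ub.2 x) +
        (-1 : ℝ) ^ (M + 1) * (dd (M + 1) v x).fst := by
      intro M
      have h2 := congrArg TrivSqZeroExt.fst (hExp V (DualNumber ℝ) L r E p M v x)
      rw [(GT_fst hNl hProd E p L ρ k hρ v x).1, TrivSqZeroExt.fst_add, TrivSqZeroExt.fst_add,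
        TrivSqZeroExt.fst_sum, (pow_mul_fst (M + 1) _).1] at h2
      rw [h2]
      congr 2
      refine Finset.sum_congr rfl fun ub _ => ?_
      rw [TrivSqZeroExt.fst_smul, smul_eq_mul, TrivSqZeroExt.fst_mul,
        (GT_fst hNl hProd E p L ρ k hρ ub.2 x).1]
    have h3 : Tendsto (fun M : ℕ => (gM E p L r M v x).fst +
        ∑ ub ∈ drt E, p * ((pM E p L r M v ub).fst * G0 E p L ρ ub.2 x) +
        (-1 : ℝ) ^ (M + 1) * (dd (M + 1) v x).fst) atTop
        (𝓝 ((∑' N : ℕ, (-1 : ℝ) ^ N * (a N v x).fst) +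
          ∑ ub ∈ drt E, p * ((∑' N : ℕ, (-1 : ℝ) ^ N * (b N v ub).fst) * G0 E p L ρ ub.2 x) + 0)) := by
      refine ((hlA0 v x).add ?_).add (rem_tendsto (fun N => (dd N v x).fst) B hBt (hR0 v x))
      exact tendsto_finsetSum _ fun ub hub => ((hlB0 v ub hub).mul_const _).const_mul _
    have h4 := tendsto_nhds_unique (tendsto_const_nhds (x := G0 E p L ρ v x))
      (h3.congr (fun M => (h1 M).symm))
    rw [add_zero] at h4
    exact h4
  · intro v x
    rw [Finset.sum_sub_distrib, regroup E L p hEL (fun ub => ∑' N : ℕ, (-1 : ℝ) ^ N * (b N v ub).snd)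
      (fun b => G0 E p L ρ b x), regroup E L p hEL (fun ub => ∑' N : ℕ, (-1 : ℝ) ^ N * (b N v ub).fst)
      (fun b => G1 E p L ρ k b x), ← Finset.sum_sub_distrib]
    have h1 : ∀ M : ℕ, - G1 E p L ρ k v x = (gM E p L r M v x).snd +
        ∑ ub ∈ drt E, (p * ((pM E p L r M v ub).snd * G0 E p L ρ ub.2 x) -
          p * ((pM E p L r M v ub).fst * G1 E p L ρ k ub.2 x)) +
        (-1 : ℝ) ^ (M + 1) * (dd (M + 1) v x).snd := by
      intro M
      have h2 := congrArg TrivSqZeroExt.snd (hExp V (DualNumber ℝ) L r E p M v x)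
      rw [(GT_fst hNl hProd E p L ρ k hρ v x).2, TrivSqZeroExt.snd_add, TrivSqZeroExt.snd_add,
        TrivSqZeroExt.snd_sum, (pow_mul_fst (M + 1) _).2] at h2
      rw [h2]
      congr 2
      refine Finset.sum_congr rfl fun ub _ => ?_
      rw [TrivSqZeroExt.snd_smul, smul_eq_mul, DualNumber.snd_mul,
        (GT_fst hNl hProd E p L ρ k hρ ub.2 x).1, (GT_fst hNl hProd E p L ρ k hρ ub.2 x).2]
      ring
    have h3 : Tendsto (fun M : ℕ => (gM E p L r M v x).snd +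
        ∑ ub ∈ drt E, (p * ((pM E p L r M v ub).snd * G0 E p L ρ ub.2 x) -
          p * ((pM E p L r M v ub).fst * G1 E p L ρ k ub.2 x)) +
        (-1 : ℝ) ^ (M + 1) * (dd (M + 1) v x).snd) atTop
        (𝓝 ((∑' N : ℕ, (-1 : ℝ) ^ N * (a N v x).snd) +
          ∑ ub ∈ drt E, (p * ((∑' N : ℕ, (-1 : ℝ) ^ N * (b N v ub).snd) * G0 E p L ρ ub.2 x) -
            p * ((∑' N : ℕ, (-1 : ℝ) ^ N * (b N v ub).fst) * G1 E p L ρ k ub.2 x)) + 0)) := by
      refine ((hlA1 v x).add ?_).add (rem_tendsto (fun N => (dd N v x).snd) S₂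
        (ENNReal.mul_ne_top hS₃ h1e) (hR1 v x))
      exact tendsto_finsetSum _ fun ub hub =>
        (((hlB1 v ub hub).mul_const _).const_mul _).sub (((hlB0 v ub hub).mul_const _).const_mul _)
    have h4 := tendsto_nhds_unique (tendsto_const_nhds (x := - G1 E p L ρ k v x))
      (h3.congr (fun M => (h1 M).symm))
    rw [add_zero] at h4
    exact h4
  · intro v
    have hsm0 : 40 * B * eps ≤ 1 / 2 := by
      refine le_trans (mul_le_mul' (mul_le_mul' ?_ le_rfl) le_rfl) hsm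
      norm_num
    rw [ENNReal.tsum_eq_iSup_sum]
    refine iSup_le fun s => ?_
    have h1 : Tendsto (fun M : ℕ => ∑ x ∈ s, q v x *
        ENNReal.ofReal |(gM E p L r M v x).fst - if x = v then 1 else 0|) atTop
        (𝓝 (∑ x ∈ s, q v x * ENNReal.ofReal |(∑' N : ℕ, (-1 : ℝ) ^ N * (a N v x).fst) -
          if x = v then 1 else 0|)) := by
      refine tendsto_finsetSum _ fun x _ => ?_
      refine ENNReal.Tendsto.const_mul ?_ (Or.inr (hqt v x))
      exact (ENNReal.continuous_ofReal.tendsto _).comp (((hlA0 v x).sub_const _).abs)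
    refine le_of_tendsto' h1 fun M => ?_
    refine le_trans (ENNReal.sum_le_tsum s) ?_
    exact hSum0 V L ρ k E p T K q nbf B eps eta D hEnv hρ hB1 hsm0 M v
  · intro v
    refine le_trans (alt_bound (q v) (fun N x => (a N v x).snd) _ (hA1 v)) (le_of_eq ?_)
    ring
  · intro v
    refine le_trans (P_bound E p hEnv.p0 hEnv.p1 q nbf hEnv.wk.q_mul hEnv.q4 hEnv.nbE v _ _
      (alt_bound (wb v) (fun N ub => (b N v ub).fst) _ (hB0 v))) (le_of_eq ?_)
    ring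
  · intro v
    refine le_trans (P_bound E p hEnv.p0 hEnv.p1 q nbf hEnv.wk.q_mul hEnv.q4 hEnv.nbE v _ _
      (alt_bound (wb v) (fun N ub => (b N v ub).snd) _ (hB1' v))) (le_of_eq ?_)
    ring

end Pool.LT
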